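import Pool.Agent.Q20.SI.Stm

/-!
# Project SI: linear relations between valuations with complex coefficients
-/

set_option autoImplicit false

namespace Pool.Agent.Q26.SI

open Pool.Agent.Q20.SI

/-- a common denominator -/
theorem exists_denom {ι κ : Type} [Fintype ι] [Fintype κ] (q : ι → κ → ℚ) :
    ∃ D : ℕ, 0 < D ∧ ∃ z : ι → κ → ℤ, ∀ i s, (z i s : ℚ) = D * q i s := by
  classical
  obtain ⟨D, hD⟩ : ∃ D : ℕ, D = ∏ i, ∏ s, (q i s).den := ⟨_, rfl⟩
  have h0 : 0 < D := by
    rw [hD]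
    exact Finset.prod_pos fun i _ => Finset.prod_pos fun s _ => (q i s).den_pos
  have h1 : ∀ i s, ∃ z : ℤ, (z : ℚ) = D * q i s := by
    intro i s
    have h2 : (q i s).den ∣ D := by
      rw [hD]
      exact (Finset.dvd_prod_of_mem (fun s => (q i s).den) (Finset.mem_univ s)).trans
        (Finset.dvd_prod_of_mem (fun i => ∏ s, (q i s).den) (Finset.mem_univ i))
    obtain ⟨r, hr⟩ := h2
    refine ⟨r * (q i s).num, ?_⟩
    rw [hr]
    push_cast
    have h3 := Rat.mul_den_eq_num (q i s)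
    rw [← h3]
    ring
  choose z hz using h1
  exact ⟨D, h0, z, hz⟩

theorem absl : S_ABS := by
  intro U P _ ord ι _ a c hc
  classical
  have : FiniteDimensional ℚ (Submodule.span ℚ (Set.range c)) :=
    FiniteDimensional.span_of_finite ℚ (Set.finite_range c)
  obtain ⟨m, ⟨b⟩⟩ : ∃ m : ℕ, Nonempty (Module.Basis (Fin m) ℚ (Submodule.span ℚ (Set.range c))) :=
    ⟨_, ⟨Module.finBasis ℚ _⟩⟩
  have hcV : ∀ i, c i ∈ Submodule.span ℚ (Set.range c) := fun i => Submodule.subset_span ⟨i, rfl⟩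
  obtain ⟨q, hq⟩ : ∃ q : ι → Fin m → ℚ, ∀ i, c i = ∑ s, (q i s : ℂ) * (b s : ℂ) := by
    refine ⟨fun i s => b.repr ⟨c i, hcV i⟩ s, fun i => ?_⟩
    have h1 := congrArg Subtype.val (b.sum_repr ⟨c i, hcV i⟩)
    simp only [Submodule.coe_sum, Submodule.coe_smul] at h1
    rw [← h1]
    refine Finset.sum_congr rfl fun s _ => ?_
    rw [Rat.smul_def]
  obtain ⟨D, hD, z, hz⟩ := exists_denom q
  have hzc : ∀ i s, ((z i s : ℤ) : ℂ) = (D : ℂ) * (q i s : ℂ) := by
    intro i s
    have h1 := congrArg (fun x : ℚ => (x : ℂ)) (hz i s)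
    simpa using h1
  have hli : ∀ g : Fin m → ℚ, ∑ s, (g s : ℂ) * (b s : ℂ) = 0 → ∀ s, g s = 0 := by
    intro g hg
    have h1 := b.linearIndependent
    rw [Fintype.linearIndependent_iff] at h1
    refine h1 g ?_
    apply Subtype.ext
    simp only [Submodule.coe_sum, Submodule.coe_smul, Submodule.coe_zero]
    rw [← hg]
    refine Finset.sum_congr rfl fun s _ => ?_
    rw [Rat.smul_def]
  refine ⟨m, fun s => b s, fun s => ∑ i, z i s • a i, D, hD, fun s => (b s).2, fun s p => ?_,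
    fun σ f => ?_⟩
  · have h1 : ∑ s, ((∑ i, q i s * (ord p (a i) : ℚ) : ℚ) : ℂ) * (b s : ℂ) = 0 := by
      rw [← hc p]
      simp only [hq, Finset.sum_mul, Rat.cast_sum, Rat.cast_mul, Rat.cast_intCast]
      rw [Finset.sum_comm]
      refine Finset.sum_congr rfl fun i _ => Finset.sum_congr rfl fun s _ => ?_
      ring
    have h2 := hli _ h1 s
    have h3 : ((ord p (∑ i, z i s • a i) : ℤ) : ℚ) = 0 := by
      rw [map_sum]
      simp only [map_zsmul, smul_eq_mul]
      push_cast
      simp only [hz]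
      calc ∑ i, (D : ℚ) * q i s * (ord p (a i) : ℚ) = D * ∑ i, q i s * (ord p (a i) : ℚ) := by
            rw [Finset.mul_sum]
            exact Finset.sum_congr rfl fun i _ => by ring
        _ = 0 := by rw [h2, mul_zero]
    exact_mod_cast h3
  · simp only [map_sum, map_zsmul, zsmul_eq_mul, hzc, hq, map_mul, map_ratCast]
    simp only [Finset.mul_sum, Finset.sum_mul]
    rw [Finset.sum_comm]
    refine Finset.sum_congr rfl fun i _ => Finset.sum_congr rfl fun s _ => ?_
    ring

end Pool.Agent.Q26.SI
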