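import Pool.Agent.Q20.SI.Stm2

/-!
# Project SI: decomposition groups at unramified primes of an abelian extension
-/

set_option autoImplicit false
set_option linter.unusedSectionVars false

namespace Pool.Agent.Q26.SI

open NumberField IsDedekindDomain Pool.Agent.Q20.SI Pool.Agent.Q20.RS Pool.Agent.Q92.AR
  Pool.Agent.Q92.PA

section
variable {F M : Type} [Field F] [NumberField F] [Field M] [NumberField M] [Algebra F M]

/-- the action on the ring of integers -/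
noncomputable def gi (g : M ≃ₐ[F] M) : 𝓞 M ≃+* 𝓞 M := RingOfIntegers.mapRingEquiv g.toRingEquiv

theorem gi_coe (g : M ≃ₐ[F] M) (x : 𝓞 M) : ((gi g x : 𝓞 M) : M) = g (x : M) := rfl

theorem gi_mul (g h : M ≃ₐ[F] M) (x : 𝓞 M) : gi (g * h) x = gi g (gi h x) := rfl

theorem gi_one (x : 𝓞 M) : gi (1 : M ≃ₐ[F] M) x = x := rfl

theorem gi_inv (g : M ≃ₐ[F] M) (x : 𝓞 M) : gi g (gi g⁻¹ x) = x := by
  rw [← gi_mul, mul_inv_cancel, gi_one]

theorem gi_inv' (g : M ≃ₐ[F] M) (x : 𝓞 M) : gi g⁻¹ (gi g x) = x := by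
  rw [← gi_mul, inv_mul_cancel, gi_one]

theorem mem_pra (g : M ≃ₐ[F] M) (P : HeightOneSpectrum (𝓞 M)) (x : 𝓞 M) :
    x ∈ (pra g P).asIdeal ↔ gi g⁻¹ x ∈ P.asIdeal := Iff.rfl

/-- `g` is the automorphism `x ↦ x ^ q` of the residue field of `Q` -/
def FrAt (Q : HeightOneSpectrum (𝓞 M)) (q : ℕ) (g : M ≃ₐ[F] M) : Prop :=
  ∀ x : 𝓞 M, gi g x - x ^ q ∈ Q.asIdeal

theorem frAt_mul {Q : HeightOneSpectrum (𝓞 M)} {q r : ℕ} {g h : M ≃ₐ[F] M} (hg : FrAt Q q g)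
    (hh : FrAt Q r h) : FrAt Q (r * q) (g * h) := by
  intro x
  rw [gi_mul]
  have h1 : gi g (gi h x) - x ^ (r * q) =
      (gi g (gi h x) - (gi h x) ^ q) + ((gi h x) ^ q - (x ^ r) ^ q) := by
    rw [pow_mul]
    ring
  rw [h1]
  refine Ideal.add_mem _ (hg _) ?_
  exact Ideal.mem_of_dvd _ (sub_dvd_pow_sub_pow _ _ _) (hh x)

theorem frAt_pow {Q : HeightOneSpectrum (𝓞 M)} {q : ℕ} {g : M ≃ₐ[F] M} (hg : FrAt Q q g) (n : ℕ) :
    FrAt Q (q ^ n) (g ^ n) := by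
  induction n with
  | zero =>
    intro x
    rw [pow_zero, pow_zero, gi_one, pow_one, sub_self]
    exact Ideal.zero_mem _
  | succ n ih =>
    rw [pow_succ q n, pow_succ' g n]
    exact frAt_mul hg ih

/-- a Frobenius element at `Q` fixes `Q` -/
theorem pra_of_frAt {Q : HeightOneSpectrum (𝓞 M)} {q : ℕ} (hq : q ≠ 0) {g : M ≃ₐ[F] M}
    (hg : FrAt Q q g) : pra g Q = Q := by
  have h1 : Q.asIdeal ≤ (pra g⁻¹ Q).asIdeal := by
    intro x hx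
    rw [mem_pra, inv_inv]
    have h2 := Ideal.add_mem _ (hg x) (Ideal.pow_mem_of_mem _ hx q (Nat.pos_of_ne_zero hq))
    rwa [sub_add_cancel] at h2
  have h2 : Q.asIdeal = (pra g⁻¹ Q).asIdeal :=
    Q.isMaximal.eq_of_le (pra g⁻¹ Q).isPrime.ne_top h1
  have h3 : pra g⁻¹ Q = Q := (HeightOneSpectrum.ext h2).symm
  calc pra g Q = pra g (pra g⁻¹ Q) := by rw [h3]
    _ = Q := by rw [← pra_mul, mul_inv_cancel, pra_one]

/-- the elements of the decomposition group act as powers of the Frobenius automorphism -/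
theorem exists_pow {Q : HeightOneSpectrum (𝓞 M)} {h : M ≃ₐ[F] M} (hQ : pra h Q = Q) :
    ∃ n : ℕ, FrAt Q (Ideal.absNorm (Q.under (𝓞 F)).asIdeal ^ n) h := by
  have hQ' : ∀ x ∈ Q.asIdeal, gi h x ∈ Q.asIdeal := by
    intro x hx
    rw [← hQ, mem_pra, gi_inv']
    exact hx
  obtain ⟨p, hp⟩ : ∃ p : Ideal (𝓞 F), p = (Q.under (𝓞 F)).asIdeal := ⟨_, rfl⟩
  obtain ⟨P, hP⟩ : ∃ P : Ideal (𝓞 M), P = Q.asIdeal := ⟨_, rfl⟩
  have hlo : P.LiesOver p := ⟨by rw [hp, hP]; rfl⟩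
  have hpm : p.IsMaximal := by
    rw [hp]
    exact (Q.under (𝓞 F)).isMaximal
  have hPm : P.IsMaximal := by
    rw [hP]
    exact Q.isMaximal
  have hp0 : p ≠ ⊥ := by
    rw [hp]
    exact (Q.under (𝓞 F)).ne_bot
  have hP0 : P ≠ ⊥ := by
    rw [hP]
    exact Q.ne_bot
  let _ : Field (𝓞 F ⧸ p) := Ideal.Quotient.field p
  let _ : Field (𝓞 M ⧸ P) := Ideal.Quotient.field P
  have hf1 : Finite (𝓞 F ⧸ p) := Ideal.finiteQuotientOfFreeOfNeBot p hp0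
  have hf2 : Finite (𝓞 M ⧸ P) := Ideal.finiteQuotientOfFreeOfNeBot P hP0
  let _ : Fintype (𝓞 F ⧸ p) := Fintype.ofFinite _
  have hle : P ≤ P.comap (gi h : 𝓞 M →+* 𝓞 M) := fun x hx => by
    rw [hP] at hx ⊢
    exact hQ' x hx
  let τ : (𝓞 M ⧸ P) →ₐ[𝓞 F ⧸ p] (𝓞 M ⧸ P) :=
    { Ideal.quotientMap P (gi h : 𝓞 M →+* 𝓞 M) hle with
      commutes' := fun y => by
        obtain ⟨a, rfl⟩ := Ideal.Quotient.mk_surjective y
        change Ideal.quotientMap P (gi h : 𝓞 M →+* 𝓞 M) hle (Ideal.Quotient.mk P (algebraMap (𝓞 F) (𝓞 M) a)) =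
          Ideal.Quotient.mk P (algebraMap (𝓞 F) (𝓞 M) a)
        rw [Ideal.quotientMap_mk]
        congr 1
        apply RingOfIntegers.ext
        exact h.commutes (a : F) }
  obtain ⟨n, hn⟩ := (FiniteField.bijective_frobeniusAlgHom_pow (𝓞 F ⧸ p) (𝓞 M ⧸ P)).2 τ
  refine ⟨n, fun x => ?_⟩
  have h1 := DFunLike.congr_fun hn (Ideal.Quotient.mk P x)
  have h2 : τ (Ideal.Quotient.mk P x) = Ideal.Quotient.mk P (gi h x) := rfl
  have h3 : (FiniteField.frobeniusAlgHom (𝓞 F ⧸ p) (𝓞 M ⧸ P) ^ n.1) (Ideal.Quotient.mk P x) =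
      Ideal.Quotient.mk P x ^ (Fintype.card (𝓞 F ⧸ p) ^ n.1) := by
    rw [AlgHom.coe_pow, FiniteField.coe_frobeniusAlgHom, pow_iterate]
  have h4 : Fintype.card (𝓞 F ⧸ p) = Ideal.absNorm (Q.under (𝓞 F)).asIdeal := by
    rw [← hp, Ideal.absNorm_apply, Submodule.cardQuot_apply, Nat.card_eq_fintype_card]
  have h5 : Ideal.Quotient.mk P (gi h x) =
      Ideal.Quotient.mk P (x ^ (Ideal.absNorm (Q.under (𝓞 F)).asIdeal ^ n.1)) := by
    rw [← h2, ← h1, map_pow, ← h4]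
    exact h3
  rw [Ideal.Quotient.eq] at h5
  rwa [← hP]

end

section
variable {F M : Type} [Field F] [NumberField F] [Field M] [NumberField M] [Algebra F M]
  [IsGalois F M]

theorem frb_spec (v : HeightOneSpectrum (𝓞 F)) : IsFrb v (frb M v) := by
  have h : ∃ g : M ≃ₐ[F] M, IsFrb v g := exists_isFrobenius v
  unfold frb
  rw [dif_pos h]
  exact h.choose_spec

theorem frAt_of_isFrb (hab : ∀ a b : M ≃ₐ[F] M, a * b = b * a) (Q : HeightOneSpectrum (𝓞 M))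
    {g : M ≃ₐ[F] M} (hg : IsFrb (Q.under (𝓞 F)) g) :
    FrAt Q (Ideal.absNorm (Q.under (𝓞 F)).asIdeal) g := by
  obtain ⟨w, hwm, hwv, hw⟩ := hg
  have hw0 : w ≠ ⊥ := by
    rintro rfl
    apply (Q.under (𝓞 F)).ne_bot
    rw [← hwv, ← RingHom.ker_eq_comap_bot]
    exact (RingHom.injective_iff_ker_eq_bot _).1 (FaithfulSMul.algebraMap_injective (𝓞 F) (𝓞 M))
  obtain ⟨σ, hσ⟩ := Pool.Agent.TeamU.exists_act (k := F) (P := ⟨w, hwm.isPrime, hw0⟩) (Q := Q)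
    (v := Q.under (𝓞 F)) hwv rfl
  have hσ' : pra σ ⟨w, hwm.isPrime, hw0⟩ = Q := hσ
  intro x
  rw [← hσ', mem_pra]
  change gi σ⁻¹ (gi g x - x ^ _) ∈ w
  obtain ⟨y, hy, hyx⟩ := hw (gi σ⁻¹ x)
  have h1 : gi σ⁻¹ (gi g x - x ^ Ideal.absNorm (Q.under (𝓞 F)).asIdeal) = y := by
    apply RingOfIntegers.ext
    rw [hyx, map_sub, map_pow, ← gi_mul, hab, gi_mul]
    rfl
  rw [hσ', h1]
  exact hy

theorem isFrb_of_frAt {Q : HeightOneSpectrum (𝓞 M)} {g : M ≃ₐ[F] M}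
    (hg : FrAt Q (Ideal.absNorm (Q.under (𝓞 F)).asIdeal) g) : IsFrb (Q.under (𝓞 F)) g :=
  ⟨Q.asIdeal, Q.isMaximal, rfl, fun x => ⟨_, hg x, rfl⟩⟩

/-- the Frobenius element generates the decomposition group -/
theorem eq_pow (hab : ∀ a b : M ≃ₐ[F] M, a * b = b * a) {Q : HeightOneSpectrum (𝓞 M)}
    (hv : Unrm M (Q.under (𝓞 F))) {h : M ≃ₐ[F] M} (hQ : pra h Q = Q) :
    ∃ n : ℕ, h = frb M (Q.under (𝓞 F)) ^ n := by
  have hg := frAt_of_isFrb hab Q (frb_spec (M := M) (Q.under (𝓞 F)))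
  obtain ⟨n, hn⟩ := exists_pow hQ
  refine ⟨n, ?_⟩
  obtain ⟨g, hge⟩ : ∃ g : M ≃ₐ[F] M, g = frb M (Q.under (𝓞 F)) := ⟨_, rfl⟩
  obtain ⟨q, hqe⟩ : ∃ q : ℕ, q = Ideal.absNorm (Q.under (𝓞 F)).asIdeal := ⟨_, rfl⟩
  rw [← hqe, ← hge] at hg
  rw [← hqe] at hn
  rw [← hge]
  have h1 : FrAt Q q (h * g * (g ^ n)⁻¹) := by
    intro x
    have h2 := frAt_mul hn hg (gi (g ^ n)⁻¹ x)
    have h3 := frAt_pow hg n (gi (g ^ n)⁻¹ x)
    rw [gi_inv] at h3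
    rw [← gi_mul] at h2
    have h4 : (gi (g ^ n)⁻¹ x) ^ (q * q ^ n) - x ^ q ∈ Q.asIdeal := by
      rw [mul_comm, pow_mul]
      have h5 : x ^ q - ((gi (g ^ n)⁻¹ x) ^ q ^ n) ^ q ∈ Q.asIdeal :=
        Ideal.mem_of_dvd _ (sub_dvd_pow_sub_pow _ _ _) h3
      have h6 := Q.asIdeal.neg_mem h5
      rwa [neg_sub] at h6
    have h7 := Ideal.add_mem _ h2 h4
    rwa [sub_add_sub_cancel] at h7
  obtain ⟨k, hk⟩ := isFrobenius_conj hv (show IsFrobenius (Q.under (𝓞 F)) g by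
    rw [hge]
    exact frb_spec (M := M) _) (show IsFrobenius (Q.under (𝓞 F)) (h * g * (g ^ n)⁻¹) from
      isFrb_of_frAt (by rwa [← hqe]))
  have e1 : k⁻¹ * g * k = g := by rw [hab k⁻¹ g, mul_assoc, inv_mul_cancel, mul_one]
  rw [e1, mul_inv_eq_iff_eq_mul, hab g] at hk
  exact mul_right_cancel hk

/-- **FRO** -/
theorem fro : S_FRO := by
  refine ⟨?_, ?_⟩
  · intro F M _ _ _ _ _ _ hab Q hv χ
    constructor
    · intro h
      refine h _ (congrArg Sum.inl (pra_of_frAt ?_ (frAt_of_isFrb hab Q (frb_spec _))))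
      exact Ideal.absNorm_ne_zero_iff_mem_nonZeroDivisors.2
        (mem_nonZeroDivisors_of_ne_zero (Q.under (𝓞 F)).ne_bot)
    · intro h g hg
      obtain ⟨n, rfl⟩ := eq_pow hab hv (Sum.inl_injective hg)
      rw [map_pow, h, one_pow]
  · intro F M _ _ _ _ _ Q
    refine ⟨Pool.Agent.Q5.BR.rdeg F Q, Pool.Agent.Q5.BR.rdeg_pos Q,
      Pool.Agent.Q5.BR.absNorm_rdeg Q, ?_⟩
    have h0 : Ideal.absNorm (Q.under (𝓞 F)).asIdeal ≠ 0 :=
      Ideal.absNorm_ne_zero_iff_mem_nonZeroDivisors.2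
        (mem_nonZeroDivisors_of_ne_zero (Q.under (𝓞 F)).ne_bot)
    have h1 : Ideal.absNorm (Q.under (𝓞 F)).asIdeal ≠ 1 := fun h =>
      (Q.under (𝓞 F)).isPrime.ne_top (Ideal.absNorm_eq_one_iff.1 h)
    omega

end

end Pool.Agent.Q26.SI
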