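import Pool.Agent.Q20.SI.Stm

/-!
# Project SI: elimination of rows with coefficients in a subfield
-/

set_option autoImplicit false

open Matrix

namespace Pool.Agent.Q26.SI

open Pool.Agent.Q20.SI

/-- a surjective matrix over a field can be completed -/
theorem exists_compl {k I J : Type} [Field k] [Fintype I] [Fintype J] [DecidableEq I]
    [DecidableEq J] (O : Matrix J (I ⊕ J) k) (h : ∀ v : J → k, v ᵥ* O = 0 → v = 0) :
    ∃ (E : Matrix (I ⊕ J) I k) (E2 : Matrix (I ⊕ J) J k), O * E = 0 ∧ O * E2 = 1 ∧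
      (Matrix.fromCols E E2).det ≠ 0 := by
  have hli : LinearIndependent k O.row := by
    rw [← Matrix.vecMul_injective_iff]
    intro v w hvw
    have h1 : (v - w) ᵥ* O = 0 := by
      rw [Matrix.sub_vecMul]
      exact sub_eq_zero.2 hvw
    exact sub_eq_zero.1 (h _ h1)
  have hrk : O.rank = Fintype.card J := hli.rank_matrix
  have htop : LinearMap.range O.mulVecLin = ⊤ := by
    apply Submodule.eq_top_of_finrank_eq
    have : Module.finrank k (LinearMap.range O.mulVecLin) = O.rank := rfl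
    rw [this, hrk, Module.finrank_fintype_fun_eq_card]
  have hsurj : ∀ w : J → k, ∃ v : I ⊕ J → k, O *ᵥ v = w := fun w => by
    have : w ∈ LinearMap.range O.mulVecLin := by
      rw [htop]
      trivial
    obtain ⟨v, hv⟩ := this
    exact ⟨v, hv⟩
  have hker : Module.finrank k (LinearMap.ker O.mulVecLin) = Fintype.card I := by
    have h1 := LinearMap.finrank_range_add_finrank_ker O.mulVecLin
    rw [htop, finrank_top, Module.finrank_fintype_fun_eq_card, Module.finrank_fintype_fun_eq_card,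
      Fintype.card_sum] at h1
    omega
  obtain ⟨b⟩ : Nonempty (Module.Basis I k (LinearMap.ker O.mulVecLin)) :=
    ⟨(Module.finBasisOfFinrankEq _ _ hker).reindex (Fintype.equivFin I).symm⟩
  choose g hg using fun j : J => hsurj (Pi.single j 1)
  obtain ⟨E, hE⟩ : ∃ E : Matrix (I ⊕ J) I k, E = Matrix.of fun x i => (b i : I ⊕ J → k) x :=
    ⟨_, rfl⟩
  obtain ⟨E2, hE2⟩ : ∃ E2 : Matrix (I ⊕ J) J k, E2 = Matrix.of fun x j => g j x := ⟨_, rfl⟩
  have e1 : O * E = 0 := by
    ext j i
    have h1 : O *ᵥ (b i : I ⊕ J → k) = 0 := (b i).2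
    have h2 := congrFun h1 j
    rw [hE]
    simpa [Matrix.mul_apply, Matrix.mulVec, dotProduct] using h2
  have e2 : O * E2 = 1 := by
    ext j i
    have h2 := congrFun (hg i) j
    simp only [Matrix.mulVec, dotProduct] at h2
    rw [hE2]
    simp only [Matrix.mul_apply, Matrix.of_apply]
    rw [h2, Matrix.one_apply, Pi.single_apply]
  refine ⟨E, E2, e1, e2, ?_⟩
  intro h0
  obtain ⟨v, hv, hv0⟩ := Matrix.exists_mulVec_eq_zero_iff.2 h0
  rw [Matrix.fromCols_mulVec] at hv0
  have h1 : v ∘ Sum.inr = 0 := by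
    have h2 : O *ᵥ (E *ᵥ (v ∘ Sum.inl) + E2 *ᵥ (v ∘ Sum.inr)) = 0 := by
      rw [hv0, Matrix.mulVec_zero]
    rw [Matrix.mulVec_add, Matrix.mulVec_mulVec, Matrix.mulVec_mulVec, e1, e2, Matrix.zero_mulVec,
      Matrix.one_mulVec, zero_add] at h2
    exact h2
  rw [h1, Matrix.mulVec_zero, add_zero] at hv0
  have h3 : v ∘ Sum.inl = 0 := by
    have h4 := b.linearIndependent
    rw [Fintype.linearIndependent_iff] at h4
    funext i
    refine h4 (v ∘ Sum.inl) ?_ i
    apply Subtype.ext
    funext x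
    have h5 := congrFun hv0 x
    rw [hE] at h5
    simp only [Matrix.mulVec, dotProduct, Matrix.of_apply, Pi.zero_apply] at h5
    simp only [Submodule.coe_sum, Submodule.coe_smul, Submodule.coe_zero, Finset.sum_apply,
      Pi.smul_apply, smul_eq_mul, Pi.zero_apply]
    rw [← h5]
    exact Finset.sum_congr rfl fun i _ => mul_comm _ _
  apply hv
  funext x
  rcases x with i | j
  · exact congrFun h3 i
  · exact congrFun h1 j

theorem mat : S_MAT := by
  intro k I J _ _ _ _ O hO ⟨B0, n0, h0⟩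
  have hn0 : ∀ j, n0 j ≠ 0 := by
    intro j hj
    apply h0
    apply Matrix.det_eq_zero_of_row_eq_zero (Sum.inr j)
    intro x
    rw [Matrix.fromRows_apply_inr, Matrix.diagonal_mul, hj, zero_mul]
  have hli : ∀ v : J → ℂ, v ᵥ* O = 0 → v = 0 := by
    intro v hv
    by_contra hv0
    apply h0
    rw [← Matrix.exists_vecMul_eq_zero_iff]
    refine ⟨Sum.elim 0 fun j => v j / n0 j, fun h1 => hv0 ?_, ?_⟩
    · funext j
      have h2 := congrFun h1 (Sum.inr j)
      simp only [Sum.elim_inr, Pi.zero_apply] at h2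
      rcases div_eq_zero_iff.1 h2 with h3 | h3
      · exact h3
      · exact absurd h3 (hn0 j)
    · have h3 : (fun j => v j / n0 j) ᵥ* Matrix.diagonal n0 = v := by
        funext j
        rw [Matrix.vecMul_diagonal, div_mul_cancel₀ _ (hn0 j)]
      rw [Matrix.sumElim_vecMul_fromRows, Matrix.zero_vecMul, zero_add, ← Matrix.vecMul_vecMul, h3,
        hv]
  obtain ⟨O', hO'⟩ : ∃ O' : Matrix J (I ⊕ J) k, O = O'.map k.subtype :=
    ⟨Matrix.of fun i j => ⟨O i j, hO i j⟩, rfl⟩
  obtain ⟨E, E2, e1, e2, e3⟩ := exists_compl O' fun v hv => by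
    have h1 : (k.subtype ∘ v) ᵥ* O = 0 := by
      rw [hO']
      funext i
      rw [← RingHom.map_vecMul, hv]
      simp
    have h2 := hli _ h1
    funext j
    have h3 := congrFun h2 j
    exact Subtype.ext h3
  obtain ⟨M, hM⟩ : ∃ M : Matrix (I ⊕ J) (I ⊕ J) k, M = Matrix.fromCols E E2 := ⟨_, rfl⟩
  rw [← hM] at e3
  refine ⟨E.map k.subtype, k.subtype M.det, ?_, M.det.2, fun i j => (E i j).2, ?_, ?_⟩
  · simpa using e3
  · rw [hO', ← Matrix.map_mul, e1]
    ext i j
    simp
  · intro σ B n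
    obtain ⟨τ, hτ⟩ : ∃ τ : k →+* ℂ, τ = (σ : ℂ →+* ℂ).comp k.subtype := ⟨_, rfl⟩
    have g1 : O.map σ = O'.map τ := by
      rw [hO', hτ]
      rfl
    have g2 : (E.map k.subtype).map σ = E.map τ := by
      rw [hτ]
      rfl
    have g3 : σ (k.subtype M.det) = (M.map τ).det := by
      have h1 : σ (k.subtype M.det) = τ M.det := by
        rw [hτ]
        rfl
      rw [h1, RingHom.map_det]
      rfl
    rw [g1, g2, g3, ← Matrix.det_mul]
    have g4 : Matrix.fromRows B (Matrix.diagonal n * O'.map τ) * M.map τ =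
        Matrix.fromBlocks (B * E.map τ) (B * E2.map τ) 0 (Matrix.diagonal n) := by
      rw [hM, Matrix.fromCols_map, Matrix.fromRows_mul_fromCols, Matrix.mul_assoc, Matrix.mul_assoc,
        ← Matrix.map_mul, ← Matrix.map_mul, e1, e2]
      congr 1
      · ext i j
        simp
      · rw [Matrix.map_one _ (map_zero τ) (map_one τ), Matrix.mul_one]
    rw [g4, Matrix.det_fromBlocks_zero₂₁, Matrix.det_diagonal]

end Pool.Agent.Q26.SI
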